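import Pool.Agent.J4H61.QB.Stm3

set_option autoImplicit false

/-! Project QB (helper61), pieces KRS and KSP (helper80). -/

open Matrix MeasureTheory
open scoped ComplexOrder

namespace Pool.Agent.J4H80.QB
open Pool.Agent.V11219.MomentOp Pool.Agent.J4H61.QB

lemma adj_apply {d t : ℕ} (A : MatT d t →ₗ[ℂ] MatT d t) (X : MatT d t) (i j : Fin t → Fin d) :
    adj A X i j = ∑ k, ∑ l, X k l * star (A (Matrix.single i j 1) k l) := rfl

/-- the adjoint of a map with Kraus operators -/
lemma adj_kraus {d t n : ℕ} (K : (Fin t → Fin n) → MatT d t) (A : MatT d t →ₗ[ℂ] MatT d t)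
    (hA : ∀ X : MatT d t, A X = ∑ x, K x * X * (K x)ᴴ) (X : MatT d t) :
    adj A X = ∑ x, (K x)ᴴ * X * K x := by
  ext i j
  rw [adj_apply, Matrix.sum_apply]
  have h1 : ∀ k l, A (Matrix.single i j 1) k l = ∑ x, K x k i * star (K x l j) := by
    intro k l
    rw [hA, Matrix.sum_apply]
    refine Finset.sum_congr rfl fun x _ => ?_
    rw [Matrix.mul_apply, Finset.sum_eq_single j]
    · rw [Matrix.mul_single_apply_same, mul_one, Matrix.conjTranspose_apply]
    · intro b _ hb
      rw [Matrix.mul_single_apply_of_ne _ _ _ _ _ hb, zero_mul]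
    · intro h
      exact absurd (Finset.mem_univ j) h
  have h2 : ∀ x, ((K x)ᴴ * X * K x) i j = ∑ k, ∑ l, star (K x k i) * X k l * K x l j := by
    intro x
    rw [Matrix.mul_apply]
    simp only [Matrix.mul_apply, Matrix.conjTranspose_apply, Finset.sum_mul]
    rw [Finset.sum_comm]
  simp only [h1, h2, star_sum, star_mul', star_star, Finset.mul_sum]
  rw [Finset.sum_comm]
  rw [Finset.sum_comm]
  calc ∑ k, ∑ l, ∑ x, X k l * (star (K x k i) * K x l j)
      = ∑ k, ∑ x, ∑ l, X k l * (star (K x k i) * K x l j) :=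
        Finset.sum_congr rfl fun k _ => Finset.sum_comm
    _ = ∑ x, ∑ k, ∑ l, X k l * (star (K x k i) * K x l j) := Finset.sum_comm
    _ = _ := by
        refine Finset.sum_congr rfl fun x _ => Finset.sum_congr rfl fun k _ =>
          Finset.sum_congr rfl fun l _ => ?_
        ring

theorem t_KRS : S_KRS := by
  intro d t n K hK A hA
  have hadj := adj_kraus K A hA
  refine ⟨fun X hX => ?_, fun X => ?_⟩
  · rw [hadj]
    exact Matrix.posSemidef_sum _ fun x _ => hX.conjTranspose_mul_mul_same (K x)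
  · obtain ⟨S, hS⟩ : ∃ S, S = adj A X := ⟨_, rfl⟩
    rw [← hS]
    have hS1 : S = ∑ x, (K x)ᴴ * X * K x := by rw [hS, hadj]
    have hS2 : Sᴴ = ∑ x, (K x)ᴴ * Xᴴ * K x := by
      rw [hS1, Matrix.conjTranspose_sum]
      refine Finset.sum_congr rfl fun x _ => ?_
      rw [Matrix.conjTranspose_mul, Matrix.conjTranspose_mul, Matrix.conjTranspose_conjTranspose,
        Matrix.mul_assoc]
    have key : adj A (Xᴴ * X) - Sᴴ * S = ∑ x, (X * K x - K x * S)ᴴ * (X * K x - K x * S) := by
      have e1 : ∀ x, (X * K x - K x * S)ᴴ * (X * K x - K x * S) =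
          (K x)ᴴ * (Xᴴ * X) * K x - (K x)ᴴ * Xᴴ * K x * S - Sᴴ * ((K x)ᴴ * X * K x) +
            Sᴴ * ((K x)ᴴ * K x) * S := by
        intro x
        rw [Matrix.conjTranspose_sub, Matrix.conjTranspose_mul, Matrix.conjTranspose_mul]
        noncomm_ring
      simp only [e1]
      rw [Finset.sum_add_distrib, Finset.sum_sub_distrib, Finset.sum_sub_distrib, ← hadj,
        ← Finset.sum_mul, ← hS2, ← Finset.mul_sum, ← hS1, ← Finset.sum_mul, ← Finset.mul_sum, hK,
        Matrix.mul_one]
      abel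
    rw [key]
    exact Matrix.posSemidef_sum _ fun x _ => Matrix.posSemidef_conjTranspose_mul_self _

lemma adj_one {d t : ℕ} (X : MatT d t) : adj (1 : MatT d t →ₗ[ℂ] MatT d t) X = X := by
  ext i j
  rw [adj_apply]
  simp only [Module.End.one_apply]
  rw [Finset.sum_eq_single i, Finset.sum_eq_single j]
  · rw [Matrix.single_apply_same, star_one, mul_one]
  · intro b _ hb
    rw [Matrix.single_apply_of_ne, star_zero, mul_zero]
    exact fun h => hb h.2.symm
  · intro h
    exact absurd (Finset.mem_univ j) h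
  · intro b _ hb
    refine Finset.sum_eq_zero fun l _ => ?_
    rw [Matrix.single_apply_of_ne, star_zero, mul_zero]
    exact fun h => hb h.1.symm
  · intro h
    exact absurd (Finset.mem_univ i) h

lemma apply_eq_sum {d t : ℕ} (A : MatT d t →ₗ[ℂ] MatT d t) (Y : MatT d t) (k l : Fin t → Fin d) :
    A Y k l = ∑ a, ∑ b, Y a b * A (Matrix.single a b 1) k l := by
  conv_lhs => rw [Matrix.matrix_eq_sum_single Y]
  simp only [map_sum, Matrix.sum_apply]
  refine Finset.sum_congr rfl fun a _ => Finset.sum_congr rfl fun b _ => ?_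
  have : Matrix.single a b (Y a b) = (Y a b) • Matrix.single a b (1 : ℂ) := by
    simp [Matrix.smul_single]
  rw [this, map_smul]
  rfl

lemma adj_mul {d t : ℕ} (A B : MatT d t →ₗ[ℂ] MatT d t) (X : MatT d t) :
    adj (A * B) X = adj B (adj A X) := by
  ext i j
  rw [adj_apply, adj_apply]
  have h1 : ∀ k l, star ((A * B) (Matrix.single i j 1) k l) =
      ∑ a, ∑ b, star (B (Matrix.single i j 1) a b) * star (A (Matrix.single a b 1) k l) := by
    intro k l
    rw [Module.End.mul_apply, apply_eq_sum A (B (Matrix.single i j 1)) k l]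
    simp only [star_sum, star_mul']
  simp only [h1, adj_apply, Finset.mul_sum, Finset.sum_mul]
  calc ∑ k, ∑ l, ∑ a, ∑ b, X k l * (star (B (Matrix.single i j 1) a b) * star (A (Matrix.single a b 1) k l))
      = ∑ k, ∑ a, ∑ l, ∑ b, X k l * (star (B (Matrix.single i j 1) a b) * star (A (Matrix.single a b 1) k l)) :=
        Finset.sum_congr rfl fun k _ => Finset.sum_comm
    _ = ∑ a, ∑ k, ∑ l, ∑ b, X k l * (star (B (Matrix.single i j 1) a b) * star (A (Matrix.single a b 1) k l)) :=
        Finset.sum_comm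
    _ = ∑ a, ∑ k, ∑ b, ∑ l, X k l * (star (B (Matrix.single i j 1) a b) * star (A (Matrix.single a b 1) k l)) :=
        Finset.sum_congr rfl fun a _ => Finset.sum_congr rfl fun k _ => Finset.sum_comm
    _ = ∑ a, ∑ b, ∑ k, ∑ l, X k l * (star (B (Matrix.single i j 1) a b) * star (A (Matrix.single a b 1) k l)) :=
        Finset.sum_congr rfl fun a _ => Finset.sum_comm
    _ = _ := by
        refine Finset.sum_congr rfl fun a _ => Finset.sum_congr rfl fun b _ =>
          Finset.sum_congr rfl fun k _ => Finset.sum_congr rfl fun l _ => ?_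
        ring

lemma KS_one {d t : ℕ} : KS (1 : MatT d t →ₗ[ℂ] MatT d t) := by
  refine ⟨fun X hX => by rw [adj_one]; exact hX, fun X => ?_⟩
  rw [adj_one, adj_one, sub_self]
  exact Matrix.PosSemidef.zero

lemma KS_mul {d t : ℕ} {A B : MatT d t →ₗ[ℂ] MatT d t} (hA : KS A) (hB : KS B) : KS (A * B) := by
  refine ⟨fun X hX => by rw [adj_mul]; exact hB.1 _ (hA.1 _ hX), fun X => ?_⟩
  rw [adj_mul, adj_mul]
  have h1 := hB.1 _ (hA.2 X)
  have h2 := hB.2 (adj A X)
  rw [map_sub] at h1
  have h3 := h1.add h2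
  rwa [sub_add_sub_cancel] at h3

theorem t_KSP : S_KSP := by
  intro d t A hA k
  induction k with
  | zero => rw [pow_zero]; exact KS_one
  | succ k ih => rw [pow_succ]; exact KS_mul ih hA

end Pool.Agent.J4H80.QB
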