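import Pool.Agent.J4H57.QB.Ez
import Pool.Agent.J4H80.QB.Krs

set_option autoImplicit false

/-! Project QB (helper61), piece HAAR (helper80). -/

open Matrix MeasureTheory
open scoped ComplexOrder

namespace Pool.Agent.J4H80.QB
open Pool.Agent.V11219.MomentOp Pool.Agent.J4H61.QB

lemma conjU_single {d : ℕ} (U : Mat d) (a b k l : Fin d) :
    conjU U (Matrix.single a b 1) k l = U k a * star (U l b) := by
  simp only [conjU, LinearMap.coe_mk, AddHom.coe_mk]
  rw [Matrix.mul_apply, Finset.sum_eq_single b]
  · rw [Matrix.mul_single_apply_same, mul_one, Matrix.conjTranspose_apply]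
  · intro c _ hc
    rw [Matrix.mul_single_apply_of_ne _ _ _ _ _ hc, zero_mul]
  · intro h
    exact absurd (Finset.mem_univ b) h

lemma sum_single {d t : ℕ} (k l : Fin t → Fin d) (f : (Fin t → Fin d) → (Fin t → Fin d) → ℂ) :
    ∑ i, ∑ j, (Matrix.single k l (1 : ℂ) : MatT d t) i j * f i j = f k l := by
  rw [Finset.sum_eq_single k, Finset.sum_eq_single l]
  · rw [Matrix.single_apply_same, one_mul]
  · intro b _ hb
    rw [Matrix.single_apply_of_ne, zero_mul]
    exact fun h => hb h.2.symm
  · intro h
    exact absurd (Finset.mem_univ l) h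
  · intro b _ hb
    refine Finset.sum_eq_zero fun l' _ => ?_
    rw [Matrix.single_apply_of_ne, zero_mul]
    exact fun h => hb h.1.symm
  · intro h
    exact absurd (Finset.mem_univ k) h

lemma tensorPow_conjU_single {d t : ℕ} (U : Mat d) (k l a b : Fin t → Fin d) :
    tensorPow t (conjU U) (Matrix.single k l 1) a b = pw t U a k * star (pw t U b l) := by
  have h : tensorPow t (conjU U) (Matrix.single k l 1) a b =
      ∑ i, ∑ j, (Matrix.single k l (1 : ℂ) : MatT d t) i j *
        ∏ s, conjU U (Matrix.single (i s) (j s) 1) (a s) (b s) := rfl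
  rw [h, sum_single]
  simp only [conjU_single, pw, Matrix.of_apply, Finset.prod_mul_distrib, star_prod]

lemma haarOp_single {d t : ℕ} (k l : Fin t → Fin d) :
    haarOp d t (Matrix.single k l 1) = Ebar d t k l := by
  ext a b
  have h : haarOp d t (Matrix.single k l 1) a b =
      ∑ i, ∑ j, (Matrix.single k l (1 : ℂ) : MatT d t) i j *
        ∫ U : Matrix.unitaryGroup (Fin d) ℂ,
          tensorPow t (conjU (U : Mat d)) (Matrix.single i j 1) a b ∂(haarU (Fin d)) := rfl
  rw [h, sum_single]
  simp only [tensorPow_conjU_single]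
  rfl

theorem t_HAAR : S_HAAR := by
  intro d t
  have h1 : hsNormSq (haarOp d t) =
      (∑ k, ∑ l, Matrix.trace ((Ebar d t k l)ᴴ * Ebar d t k l)).re := by
    unfold hsNormSq
    rw [Complex.re_sum]
    refine Finset.sum_congr rfl fun k _ => ?_
    rw [Complex.re_sum]
    refine Finset.sum_congr rfl fun l _ => ?_
    rw [haarOp_single]
    simp only [Matrix.trace, Matrix.diag_apply, Matrix.mul_apply, Matrix.conjTranspose_apply]
    rw [Complex.re_sum, Finset.sum_comm]
    refine Finset.sum_congr rfl fun b _ => ?_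
    rw [Complex.re_sum]
    refine Finset.sum_congr rfl fun a _ => ?_
    rw [Complex.star_def, ← Complex.normSq_eq_conj_mul_self, Complex.ofReal_re,
      Complex.normSq_eq_norm_sq]
  have h2 : ∑ k, ∑ l, Matrix.trace ((Ebar d t k l)ᴴ * Ebar d t k l) = Matrix.trace (Zm d t) := by
    rw [← Pool.Agent.J4H57.QB.t_EZ d t, Matrix.trace_sum]
    refine Finset.sum_congr rfl fun k _ => ?_
    rw [Matrix.trace_sum]
  have h3 : Matrix.trace (Zm d t) = ∫ U : Matrix.unitaryGroup (Fin d) ℂ,
      (Matrix.trace (U : Mat d)) ^ t * (Matrix.trace ((1 : Mat d) * (U : Mat d)ᴴ)) ^ t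
        ∂(haarU (Fin d)) := by
    have hint : ∀ i ∈ (Finset.univ : Finset (Fin t → Fin d)),
        Integrable (fun U : Matrix.unitaryGroup (Fin d) ℂ =>
          (Matrix.trace (U : Mat d)) ^ t * pw t (U : Mat d)ᴴ i i) (haarU (Fin d)) := by
      intro i _
      refine Pool.Agent.J4H57.QB.integ ?_
      refine Continuous.mul ?_ ?_
      · exact (continuous_subtype_val.matrix_trace).pow t
      · have := (Pool.Agent.J4H57.QB.pw_cont (d := d) (t := t) i i).star
        refine this.congr fun U => ?_
        exact Pool.Agent.J4H57.QB.star_pw _ _ _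
    have e1 : Matrix.trace (Zm d t) = ∑ i, ∫ U : Matrix.unitaryGroup (Fin d) ℂ,
        (Matrix.trace (U : Mat d)) ^ t * pw t (U : Mat d)ᴴ i i ∂(haarU (Fin d)) := rfl
    rw [e1, ← integral_finsetSum _ hint]
    refine integral_congr_ae (Filter.Eventually.of_forall fun U => ?_)
    simp only
    rw [← Finset.mul_sum, Matrix.one_mul]
    congr 1
    simp only [pw, Matrix.of_apply, Matrix.trace, Matrix.diag_apply]
    rw [Fintype.sum_pow]
  rw [h1, h2, h3]
  rfl

end Pool.Agent.J4H80.QB
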