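import Pool.Agent.J4H61.QB.Stm4
import Pool.Agent.J4H97.QB.Diag

/-!
# Project QB (helper61), piece ALL: the maximum is attained at the identity (helper80)
-/

set_option autoImplicit false
set_option linter.unusedVariables false

open Matrix MeasureTheory
open scoped ComplexOrder

namespace Pool.Agent.J4H80.QB.AllP
open Pool.Agent.V11219.MomentOp
open Pool.Agent.J4H61.QB

section

variable {d : ℕ}

lemma intble {f : Matrix.unitaryGroup (Fin d) ℂ → ℂ} (hf : Continuous f) : Integrable f (haarU (Fin d)) :=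
  hf.integrable_of_hasCompactSupport (HasCompactSupport.of_compactSpace _)

lemma cont_val : Continuous fun U : Matrix.unitaryGroup (Fin d) ℂ => (U : Mat d) := continuous_subtype_val

lemma cont_tr (M : Mat d) : Continuous fun U : Matrix.unitaryGroup (Fin d) ℂ => Matrix.trace (M * (U : Mat d)ᴴ) :=
  (continuous_const.matrix_mul cont_val.matrix_conjTranspose).matrix_trace

lemma cont_t : Continuous fun U : Matrix.unitaryGroup (Fin d) ℂ => Matrix.trace (U : Mat d) :=
  cont_val.matrix_trace

/-- the derivative -/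
lemma hderiv (n : ℕ) {φ a b : Matrix.unitaryGroup (Fin d) ℂ → ℂ} (hφ : Continuous φ) (ha : Continuous a)
    (hb : Continuous b) (s₀ : ℝ) :
    HasDerivAt (fun s : ℝ => ∫ U, φ U * (a U + s * b U) ^ (n + 1) ∂(haarU (Fin d)))
      (∫ U, φ U * ((n + 1) * (a U + s₀ * b U) ^ n * b U) ∂(haarU (Fin d))) s₀ := by
  have hc : Continuous fun q : ℝ × Matrix.unitaryGroup (Fin d) ℂ =>
      φ q.2 * ((n + 1) * (a q.2 + q.1 * b q.2) ^ n * b q.2) := by
    have h1 := hφ.comp (continuous_snd (X := ℝ) (Y := Matrix.unitaryGroup (Fin d) ℂ))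
    have h2 := ha.comp (continuous_snd (X := ℝ) (Y := Matrix.unitaryGroup (Fin d) ℂ))
    have h3 := hb.comp (continuous_snd (X := ℝ) (Y := Matrix.unitaryGroup (Fin d) ℂ))
    have h4 : Continuous fun q : ℝ × Matrix.unitaryGroup (Fin d) ℂ => (q.1 : ℂ) :=
      Complex.continuous_ofReal.comp continuous_fst
    exact h1.mul ((continuous_const.mul ((h2.add (h4.mul h3)).pow n)).mul h3)
  obtain ⟨C, hC⟩ := (isCompact_Icc.prod (isCompact_univ (X := Matrix.unitaryGroup (Fin d) ℂ))).exists_bound_of_continuousOn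
    (s := Set.Icc (s₀ - 1) (s₀ + 1) ×ˢ (Set.univ : Set (Matrix.unitaryGroup (Fin d) ℂ))) hc.continuousOn
  have h := hasDerivAt_integral_of_dominated_loc_of_deriv_le (μ := haarU (Fin d))
    (F := fun (s : ℝ) U => φ U * (a U + s * b U) ^ (n + 1))
    (F' := fun (s : ℝ) U => φ U * ((n + 1) * (a U + s * b U) ^ n * b U)) (x₀ := s₀)
    (s := Set.Icc (s₀ - 1) (s₀ + 1)) (bound := fun _ => C) (Icc_mem_nhds (by linarith) (by linarith)) ?_ ?_ ?_ ?_ ?_ ?_
  · exact h.2
  · refine Filter.Eventually.of_forall fun s => ?_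
    refine Continuous.aestronglyMeasurable ?_
    exact hφ.mul ((ha.add (continuous_const.mul hb)).pow _)
  · exact intble (hφ.mul ((ha.add (continuous_const.mul hb)).pow _))
  · refine Continuous.aestronglyMeasurable ?_
    exact hφ.mul ((continuous_const.mul ((ha.add (continuous_const.mul hb)).pow _)).mul hb)
  · refine Filter.Eventually.of_forall fun U s hs => ?_
    exact hC (s, U) ⟨hs, Set.mem_univ _⟩
  · exact integrable_const _
  · refine Filter.Eventually.of_forall fun U s hs => ?_
    have h1 : HasDerivAt (fun s : ℝ => a U + (s : ℂ) * b U) (b U) s := by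
      have := ((Complex.ofRealCLM.hasDerivAt (x := s)).mul_const (b U)).const_add (a U)
      simpa using this
    have h2 := (h1.pow (n + 1)).const_mul (φ U)
    refine (show HasDerivAt (fun s : ℝ => φ U * (a U + (s : ℂ) * b U) ^ (n + 1)) _ s from h2).congr_deriv ?_
    rw [Nat.add_sub_cancel]
    push_cast
    ring

/-- `F` is antitone along the segment from `1` -/
lemma main_strict (hKK : S_KK) (n : ℕ) (x : Fin d → ℝ) (hx : StrictAnti x) (hpos : ∀ i, 0 < x i)
    (hsum : ∑ i, x i = d) (hd : 0 < d) : F d (n + 1) (dg x) ≤ F d (n + 1) 1 := by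
  set X : ℝ → Fin d → ℝ := fun s i => 1 + s * (x i - 1) with hX
  set a : Matrix.unitaryGroup (Fin d) ℂ → ℂ := fun U => Matrix.trace ((1 : Mat d) * (U : Mat d)ᴴ) with ha
  set b : Matrix.unitaryGroup (Fin d) ℂ → ℂ := fun U => Matrix.trace ((dg x - 1) * (U : Mat d)ᴴ) with hb
  have htr : ∀ (s : ℝ) (U : Matrix.unitaryGroup (Fin d) ℂ),
      Matrix.trace (dg (X s) * (U : Mat d)ᴴ) = a U + s * b U := by
    intro s U
    have h1 : dg (X s) = 1 + (s : ℂ) • (dg x - 1) := by
      ext i j
      unfold dg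
      by_cases hij : i = j
      · subst hij
        simp [hX]
      · simp [hij]
    rw [h1, Matrix.add_mul, Matrix.trace_add, Matrix.smul_mul, Matrix.trace_smul, smul_eq_mul]
  have hF : ∀ s : ℝ, F d (n + 1) (dg (X s)) = (∫ U : Matrix.unitaryGroup (Fin d) ℂ,
      (Matrix.trace (U : Mat d)) ^ (n + 1) * (a U + s * b U) ^ (n + 1) ∂(haarU (Fin d))).re := by
    intro s
    unfold F
    simp only [htr]
  have hder : ∀ s : ℝ, HasDerivAt (fun s => F d (n + 1) (dg (X s)))
      (∫ U : Matrix.unitaryGroup (Fin d) ℂ, (Matrix.trace (U : Mat d)) ^ (n + 1) *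
        ((n + 1) * (a U + s * b U) ^ n * b U) ∂(haarU (Fin d))).re s := by
    intro s
    have h := hderiv n (cont_t.pow (n + 1)) (cont_tr (1 : Mat d)) (cont_tr (dg x - 1)) s
    have h2 := (Complex.reCLM.hasFDerivAt.comp_hasDerivAt s h)
    simp only [hF]
    exact h2
  have hneg : ∀ s : ℝ, 0 < s → s < 1 →
      (∫ U : Matrix.unitaryGroup (Fin d) ℂ, (Matrix.trace (U : Mat d)) ^ (n + 1) *
        ((n + 1) * (a U + s * b U) ^ n * b U) ∂(haarU (Fin d))).re ≤ 0 := by
    intro s hs hs1
    have hk := hKK d n (X s) ?_ ?_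
    · have hS : ∑ i, X s i = d := by
        simp only [hX]
        rw [Finset.sum_add_distrib, ← Finset.mul_sum, Finset.sum_sub_distrib, hsum]
        simp
      rw [hS] at hk
      have hd' : (0 : ℝ) < d := by exact_mod_cast hd
      have hk2 : F d (n + 1) (dg (X s)) ≤ G d (n + 1) (dg (X s)) := le_of_mul_le_mul_left hk hd'
      have hG : G d (n + 1) (dg (X s)) = (∫ U : Matrix.unitaryGroup (Fin d) ℂ,
          (Matrix.trace (U : Mat d)) ^ (n + 1) * ((a U + s * b U) ^ n * a U) ∂(haarU (Fin d))).re := by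
        unfold G
        simp only [htr, Nat.add_sub_cancel, ha, Matrix.one_mul]
      have hc1 : Integrable (fun U : Matrix.unitaryGroup (Fin d) ℂ => (Matrix.trace (U : Mat d)) ^ (n + 1) *
          (a U + s * b U) ^ (n + 1)) (haarU (Fin d)) :=
        intble ((cont_t.pow _).mul (((cont_tr 1).add (continuous_const.mul (cont_tr _))).pow _))
      have hc2 : Integrable (fun U : Matrix.unitaryGroup (Fin d) ℂ => (Matrix.trace (U : Mat d)) ^ (n + 1) *
          ((a U + s * b U) ^ n * a U)) (haarU (Fin d)) :=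
        intble ((cont_t.pow _).mul ((((cont_tr 1).add (continuous_const.mul (cont_tr _))).pow _).mul (cont_tr 1)))
      have hid : (s : ℂ) * (∫ U : Matrix.unitaryGroup (Fin d) ℂ, (Matrix.trace (U : Mat d)) ^ (n + 1) *
          ((n + 1) * (a U + s * b U) ^ n * b U) ∂(haarU (Fin d))) =
          ((n : ℂ) + 1) * ((∫ U : Matrix.unitaryGroup (Fin d) ℂ, (Matrix.trace (U : Mat d)) ^ (n + 1) *
          (a U + s * b U) ^ (n + 1) ∂(haarU (Fin d))) - (∫ U : Matrix.unitaryGroup (Fin d) ℂ,
          (Matrix.trace (U : Mat d)) ^ (n + 1) * ((a U + s * b U) ^ n * a U) ∂(haarU (Fin d)))) := by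
        rw [← integral_sub hc1 hc2, ← integral_const_mul, ← integral_const_mul]
        refine integral_congr_ae (Filter.Eventually.of_forall fun U => ?_)
        simp only
        ring
      have hre := congrArg Complex.re hid
      rw [Complex.re_ofReal_mul] at hre
      have e1 : ((n : ℂ) + 1) = (((n : ℝ) + 1 : ℝ) : ℂ) := by push_cast; ring
      rw [e1, Complex.re_ofReal_mul, Complex.sub_re, ← hF, ← hG] at hre
      have h5 : s * (∫ U : Matrix.unitaryGroup (Fin d) ℂ, (Matrix.trace (U : Mat d)) ^ (n + 1) *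
          ((n + 1) * (a U + s * b U) ^ n * b U) ∂(haarU (Fin d))).re ≤ 0 := by
        rw [show ((n : ℂ) + 1) = (((n : ℝ) + 1 : ℝ) : ℂ) from e1, hre]
        exact mul_nonpos_of_nonneg_of_nonpos (by positivity) (by linarith)
      exact nonpos_of_mul_nonpos_right h5 hs
    · intro i j hij
      simp only [hX]
      have := hx hij
      nlinarith
    · intro i
      simp only [hX]
      have := hpos i
      nlinarith
  have hanti : AntitoneOn (fun s => F d (n + 1) (dg (X s))) (Set.Icc 0 1) := by
    refine antitoneOn_of_deriv_nonpos (convex_Icc 0 1) ?_ ?_ ?_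
    · exact fun s _ => (hder s).continuousAt.continuousWithinAt
    · exact fun s _ => (hder s).differentiableAt.differentiableWithinAt
    · intro s hs
      rw [interior_Icc] at hs
      rw [(hder s).deriv]
      exact hneg s hs.1 hs.2
  have h01 := hanti (Set.left_mem_Icc.2 zero_le_one) (Set.right_mem_Icc.2 zero_le_one) zero_le_one
  have e0 : dg (X 0) = (1 : Mat d) := by
    unfold dg
    simp [hX]
  have e1 : dg (X 1) = dg x := by
    simp [hX]
  simp only [e0, e1] at h01
  exact h01

/-- a point of the segment to the vector of strictly decreasing weights -/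
noncomputable def ww (d : ℕ) (i : Fin d) : ℝ := 2 * ((d : ℝ) - (i : ℕ)) / ((d : ℝ) + 1)

lemma ww_anti (d : ℕ) : StrictAnti (ww d) := by
  intro i j hij
  unfold ww
  have h1 : ((i : ℕ) : ℝ) < ((j : ℕ) : ℝ) := by exact_mod_cast hij
  have h2 : (0 : ℝ) < (d : ℝ) + 1 := by positivity
  rw [div_lt_div_iff_of_pos_right h2]
  linarith

lemma ww_pos (d : ℕ) (i : Fin d) : 0 < ww d i := by
  unfold ww
  have h1 : ((i : ℕ) : ℝ) < (d : ℝ) := by exact_mod_cast i.2
  have h2 : (0 : ℝ) < (d : ℝ) + 1 := by positivity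
  exact div_pos (by linarith) h2

lemma ww_sum (d : ℕ) : ∑ i, ww d i = d := by
  unfold ww
  rw [← Finset.sum_div, ← Finset.mul_sum, Finset.sum_sub_distrib]
  have h1 : ∑ i : Fin d, ((i : ℕ) : ℝ) = (d : ℝ) * (d - 1) / 2 := by
    rw [Fin.sum_univ_eq_sum_range (fun i => (i : ℝ)) d]
    induction d with
    | zero => simp
    | succ k ih => rw [Finset.sum_range_succ, ih]; push_cast; ring
  rw [h1]
  simp only [Finset.sum_const, Finset.card_univ, Fintype.card_fin, nsmul_eq_mul]
  have h2 : (d : ℝ) + 1 ≠ 0 := by positivity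
  field_simp
  ring

lemma main_anti (hKK : S_KK) (n : ℕ) (x : Fin d → ℝ) (hx : Antitone x) (hpos : ∀ i, 0 ≤ x i)
    (hsum : ∑ i, x i = d) (hd : 0 < d) : F d (n + 1) (dg x) ≤ F d (n + 1) 1 := by
  have hcont : ContinuousAt (fun s : ℝ => F d (n + 1) (dg fun i => x i + s * (ww d i - x i))) 0 := by
    have htr : ∀ (s : ℝ) (U : Matrix.unitaryGroup (Fin d) ℂ),
        Matrix.trace (dg (fun i => x i + s * (ww d i - x i)) * (U : Mat d)ᴴ) =
          Matrix.trace (dg x * (U : Mat d)ᴴ) + s * Matrix.trace ((dg (ww d) - dg x) * (U : Mat d)ᴴ) := by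
      intro s U
      have h1 : dg (fun i => x i + s * (ww d i - x i)) = dg x + (s : ℂ) • (dg (ww d) - dg x) := by
        ext i j
        unfold dg
        by_cases hij : i = j
        · subst hij
          simp
        · simp [hij]
      rw [h1, Matrix.add_mul, Matrix.trace_add, Matrix.smul_mul, Matrix.trace_smul, smul_eq_mul]
    have h := (hderiv n (cont_t.pow (n + 1)) (cont_tr (dg x)) (cont_tr (dg (ww d) - dg x)) (0 : ℝ)).continuousAt
    have h2 := Complex.continuous_re.continuousAt.comp h
    refine h2.congr (Filter.Eventually.of_forall fun s => ?_)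
    unfold F
    simp only [htr]
    rfl
  have hle : ∀ᶠ s : ℝ in nhdsWithin 0 (Set.Ioi 0),
      F d (n + 1) (dg fun i => x i + s * (ww d i - x i)) ≤ F d (n + 1) 1 := by
    filter_upwards [Ioo_mem_nhdsGT (zero_lt_one (α := ℝ))] with s hs
    refine main_strict hKK n _ ?_ ?_ ?_ hd
    · intro i j hij
      have h1 := ww_anti d hij
      have h2 := hx hij.le
      simp only
      nlinarith [hs.1, hs.2]
    · intro i
      have h1 := ww_pos d i
      have h2 := hpos i
      have h3 : 0 < s * ww d i := mul_pos hs.1 h1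
      have h4 : 0 ≤ (1 - s) * x i := mul_nonneg (by linarith [hs.2]) h2
      linarith
    · rw [Finset.sum_add_distrib, ← Finset.mul_sum, Finset.sum_sub_distrib, hsum, ww_sum]
      ring
  have hlim : Filter.Tendsto (fun s : ℝ => F d (n + 1) (dg fun i => x i + s * (ww d i - x i)))
      (nhdsWithin (0 : ℝ) (Set.Ioi 0)) (nhds (F d (n + 1) (dg fun i => x i + 0 * (ww d i - x i)))) :=
    hcont.tendsto.mono_left nhdsWithin_le_nhds
  have h := le_of_tendsto hlim hle
  simpa using h

/-- the unitary matrix of a permutation -/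
noncomputable def pu (σ : Equiv.Perm (Fin d)) : Matrix.unitaryGroup (Fin d) ℂ :=
  ⟨(1 : Mat d).submatrix σ id, by
    rw [Matrix.mem_unitaryGroup_iff]
    rw [Matrix.star_eq_conjTranspose, Matrix.conjTranspose_submatrix, Matrix.conjTranspose_one,
      ← Matrix.submatrix_mul _ _ _ _ _ Function.bijective_id, mul_one, Matrix.submatrix_one_equiv]⟩

lemma pu_conj (σ : Equiv.Perm (Fin d)) (D : Mat d) :
    (pu σ : Mat d) * D * star (pu σ : Mat d) = D.submatrix σ σ := by
  have h1 : (pu σ : Mat d) = (1 : Mat d).submatrix σ id := rfl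
  rw [h1, Matrix.star_eq_conjTranspose, Matrix.conjTranspose_submatrix, Matrix.conjTranspose_one]
  have h2 : (1 : Mat d).submatrix σ id * D = D.submatrix σ id := by
    conv_lhs => rw [← Matrix.submatrix_id_id D]
    rw [← Matrix.submatrix_mul _ _ _ _ _ Function.bijective_id, one_mul]
  rw [h2, ← Matrix.submatrix_mul _ _ _ _ _ Function.bijective_id, mul_one]

lemma main_diag (hKK : S_KK) (n : ℕ) (x : Fin d → ℝ) (hpos : ∀ i, 0 ≤ x i)
    (hsum : ∑ i, x i = d) (hd : 0 < d) : F d (n + 1) (dg x) ≤ F d (n + 1) 1 := by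
  obtain ⟨σ, hσ⟩ : ∃ σ : Equiv.Perm (Fin d), Antitone (fun i => x (σ i)) := by
    refine ⟨Fin.revPerm.trans (Tuple.sort x), ?_⟩
    have hmono : Monotone (x ∘ Tuple.sort x) := Tuple.monotone_sort x
    intro i j hij
    exact hmono (Fin.rev_le_rev.2 hij)
  have h1 : dg (fun i => x (σ i)) = (pu σ : Mat d) * dg x * star (pu σ : Mat d) := by
    rw [pu_conj]
    unfold dg
    rw [Matrix.submatrix_diagonal_equiv]
    rfl
  have h2 := main_anti hKK n (fun i => x (σ i)) hσ (fun i => hpos _) (by rw [Equiv.sum_comp σ x, hsum]) hd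
  rw [h1, Pool.Agent.J4H97.QB.Diag.F_conj] at h2
  exact h2

end

theorem t_ALL : S_KK → S_ALL := by
  intro hKK d t X hX htr
  cases t with
  | zero =>
    unfold F
    simp
  | succ n =>
    rcases Nat.eq_zero_or_pos d with hd | hd
    · subst hd
      have : X = 1 := by
        ext i j
        exact i.elim0
      rw [this]
    · have hH := hX.isHermitian
      have hs := hH.spectral_theorem
      rw [Unitary.conjStarAlgAut_apply] at hs
      have h1 : (Matrix.diagonal (RCLike.ofReal ∘ hH.eigenvalues) : Mat d) = dg hH.eigenvalues := rfl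
      rw [h1] at hs
      have hsum : ∑ i, hH.eigenvalues i = d := by
        have h2 := hH.trace_eq_sum_eigenvalues
        rw [htr] at h2
        have h3 : ((d : ℝ) : ℂ) = ((∑ i, hH.eigenvalues i : ℝ) : ℂ) := by
          rw [Complex.ofReal_sum]
          simpa using h2
        exact (Complex.ofReal_injective h3).symm
      have h4 := main_diag hKK n hH.eigenvalues hX.eigenvalues_nonneg hsum hd
      rw [← Pool.Agent.J4H97.QB.Diag.F_conj d (n + 1) hH.eigenvectorUnitary (dg hH.eigenvalues)] at h4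
      rw [hs]
      exact h4

end Pool.Agent.J4H80.QB.AllP
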