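import Pool.Agent.J4H61.QB.Stm3

set_option autoImplicit false

/-! Project QB (helper61): KS1, NRM, QUB from the pieces (helper80). -/

open Matrix MeasureTheory
open scoped ComplexOrder

namespace Pool.Agent.J4H80.QB
open Pool.Agent.V11219.MomentOp Pool.Agent.J4H61.QB

theorem t_NRM (hHSN : S_HSN) (hAE : S_AE) (hKST : S_KST) (hEZ : S_EZ) : S_NRM := by
  intro d t A hA hinv
  rw [hHSN d t A]
  have h1 : ∀ k l, (Matrix.trace ((adj A (Matrix.single k l 1))ᴴ * adj A (Matrix.single k l 1))).re ≤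
      (Matrix.trace ((A 1)ᴴ * ((Ebar d t k l)ᴴ * Ebar d t k l))).re := by
    intro k l
    rw [hAE d t A hinv k l]
    exact hKST d t A hA _
  refine (Finset.sum_le_sum fun k _ => Finset.sum_le_sum fun l _ => h1 k l).trans (le_of_eq ?_)
  rw [← hEZ d t, Finset.mul_sum, Matrix.trace_sum, Complex.re_sum]
  refine Finset.sum_congr rfl fun k _ => ?_
  rw [Finset.mul_sum, Matrix.trace_sum, Complex.re_sum]

theorem t_QUB (hDIAG : S_DIAG) (hTOR : S_TOR) (hNUM : S_NUM) : S_QUB := by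
  intro t X hX htr
  obtain ⟨x, y, hx, hy, hxy, hF⟩ := hDIAG t X hX htr
  have h1 : (1 : Mat 2) = Matrix.diagonal ![((1 : ℝ) : ℂ), ((1 : ℝ) : ℂ)] := by
    rw [← Matrix.diagonal_one]
    congr 1
    funext i
    fin_cases i <;> simp
  rw [hF, h1, hTOR, hTOR]
  refine mul_le_mul_of_nonneg_left ?_ (integral_nonneg fun U => by positivity)
  refine (hNUM t x y hx hy hxy).trans (le_of_eq ?_)
  refine Finset.sum_congr rfl fun k _ => ?_
  rw [one_pow, one_pow, mul_one, mul_one]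

theorem t_KS1 (hKRS : S_KRS) (hKRD : S_KRD) (hKSA : S_KSA) : S_KS1 := by
  intro t d dE ψ hψ
  refine hKSA t d dE ψ fun V => ?_
  obtain ⟨K, hK1, hK2⟩ := hKRD t d dE ψ hψ V
  exact hKRS d t dE K hK1 _ hK2

end Pool.Agent.J4H80.QB
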