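import Pool.Agent.J4H61.QB.Kmu

/-!
# Project QB (helper61), piece FEC, base case: the coefficients of the Vandermonde polynomial (helper80)
-/

set_option autoImplicit false
set_option linter.unusedVariables false

open Matrix MeasureTheory
open scoped ComplexOrder

namespace Pool.Agent.J4H80.QB
open Pool.Agent.V11219.MomentOp
open Pool.Agent.J4H61.QB

lemma vp_vand (d : ℕ) : vp d = (Matrix.vandermonde fun i : Fin d => - (MvPolynomial.X i : MvPolynomial (Fin d) ℂ)).det := by
  rw [Matrix.det_vandermonde, vp]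
  refine Finset.prod_congr rfl fun i _ => Finset.prod_congr rfl fun j _ => ?_
  ring

/-- the exponent `(j ↦ j) ∘ σ⁻¹`: the exponent of `X i` is `σ i` -/
lemma vp_sum (d : ℕ) : vp d = ∑ σ : Equiv.Perm (Fin d), MvPolynomial.monomial
    (Finsupp.equivFunOnFinite.symm fun i => ((σ i : Fin d) : ℕ))
    (((Equiv.Perm.sign σ : ℤ) : ℂ) * (-1) ^ (d.choose 2)) := by
  rw [vp_vand, ← Matrix.det_transpose, Matrix.det_apply]
  refine Finset.sum_congr rfl fun σ _ => ?_
  have h1 : ∏ i, (Matrix.vandermonde fun i : Fin d => - (MvPolynomial.X i : MvPolynomial (Fin d) ℂ))ᵀ (σ i) i =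
      MvPolynomial.monomial (Finsupp.equivFunOnFinite.symm fun i => ((σ i : Fin d) : ℕ)) ((-1) ^ (d.choose 2)) := by
    rw [MvPolynomial.monomial_eq, Finsupp.prod_fintype _ _ (fun i => by simp)]
    have h2 : ∀ i : Fin d, (Matrix.vandermonde fun i : Fin d => - (MvPolynomial.X i : MvPolynomial (Fin d) ℂ))ᵀ (σ i) i =
        (-1) ^ ((σ i : Fin d) : ℕ) * MvPolynomial.X i ^ ((σ i : Fin d) : ℕ) := by
      intro i
      rw [Matrix.transpose_apply, Matrix.vandermonde_apply, neg_pow]
    rw [Finset.prod_congr rfl fun i _ => h2 i, Finset.prod_mul_distrib, Finset.prod_pow_eq_pow_sum]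
    have h3 : ∑ i, ((σ i : Fin d) : ℕ) = d.choose 2 := by
      rw [Equiv.sum_comp σ (fun i : Fin d => (i : ℕ)), Fin.sum_univ_eq_sum_range (fun i => i) d,
        Finset.sum_range_id, Nat.choose_two_right]
    rw [h3, map_pow, map_neg, map_one]
    rfl
  rw [h1]
  rw [Units.smul_def, zsmul_eq_mul, ← map_intCast (MvPolynomial.C : ℂ →+* MvPolynomial (Fin d) ℂ),
    MvPolynomial.C_mul_monomial]

lemma Dl_id (d : ℕ) : Dl (fun i : Fin d => ((i : ℕ) : ℝ)) =
    (-1) ^ (d.choose 2) * ∏ k ∈ Finset.range d, (k.factorial : ℝ) := by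
  cases d with
  | zero => simp [Dl]
  | succ n =>
    rw [Dl_vand]
    have h1 : (Matrix.vandermonde fun i : Fin (n + 1) => -((i : ℕ) : ℝ)) =
        Matrix.of fun i j => (fun j : Fin (n + 1) => (-1 : ℝ) ^ (j : ℕ)) j *
          (Matrix.vandermonde fun i : Fin (n + 1) => ((i : ℕ) : ℝ)) i j := by
      ext i j
      rw [Matrix.vandermonde_apply, Matrix.of_apply, Matrix.vandermonde_apply, neg_pow]
    rw [h1, Matrix.det_mul_row, Finset.prod_pow_eq_pow_sum, Fin.sum_univ_eq_sum_range (fun i => i) (n + 1),
      Finset.sum_range_id, ← Nat.choose_two_right, Matrix.det_vandermonde_id_eq_superFactorial,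
      ← Nat.prod_range_succ_factorial]
    push_cast
    rfl

/-- distinct naturals with the smallest possible sum -/
lemma min_sum {d : ℕ} {m : Fin d → ℕ} (hm : Function.Injective m) (hs : ∑ i, m i = d.choose 2) :
    ∃ σ : Equiv.Perm (Fin d), ∀ i, m i = ((σ i : Fin d) : ℕ) := by
  classical
  have hlt : ∀ i, m i < d := by
    set s : Finset ℕ := Finset.univ.image m with hsdef
    have hcard : s.card = d := by
      rw [hsdef, Finset.card_image_of_injective _ hm, Finset.card_univ, Fintype.card_fin]
    have hsum : ∑ z ∈ s, z = ∑ z ∈ Finset.range d, z := by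
      rw [hsdef, Finset.sum_image (fun a _ b _ h => hm h), hs, Finset.sum_range_id, Nat.choose_two_right]
    let f : ℕ → ℤ := fun z => 2 * z - (2 * d - 1)
    have hf : ∑ z ∈ s, f z = ∑ z ∈ Finset.range d, f z := by
      have e : ∀ s : Finset ℕ, ∑ z ∈ s, f z = 2 * ((∑ z ∈ s, z : ℕ) : ℤ) - s.card * (2 * d - 1) := by
        intro s
        simp only [f]
        rw [Finset.sum_sub_distrib, ← Finset.mul_sum, Finset.sum_const, nsmul_eq_mul]
        push_cast
        rfl
      rw [e, e, hsum, hcard, Finset.card_range]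
    have h1 := Finset.sum_inter_add_sum_sdiff s (Finset.range d) f
    have h2 := Finset.sum_inter_add_sum_sdiff (Finset.range d) s f
    rw [Finset.inter_comm] at h2
    have h3 : ∑ z ∈ Finset.range d \ s, f z ≤ 0 := by
      refine Finset.sum_nonpos fun z hz => ?_
      have hz' := Finset.mem_range.1 (Finset.mem_sdiff.1 hz).1
      simp only [f]
      omega
    intro i
    by_contra hc
    have h4 : 0 < ∑ z ∈ s \ Finset.range d, f z := by
      refine Finset.sum_pos (fun z hz => ?_) ⟨m i, ?_⟩
      · have hz' := (Finset.mem_sdiff.1 hz).2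
        rw [Finset.mem_range] at hz'
        simp only [f]
        omega
      · rw [Finset.mem_sdiff, Finset.mem_range]
        exact ⟨Finset.mem_image_of_mem m (Finset.mem_univ i), hc⟩
    linarith
  have hinj : Function.Injective (fun i : Fin d => (⟨m i, hlt i⟩ : Fin d)) := by
    intro a b h
    exact hm (by simpa using h)
  refine ⟨Equiv.ofBijective _ (Finite.injective_iff_bijective.1 hinj), fun i => ?_⟩
  rw [Equiv.ofBijective_apply]

theorem base (d : ℕ) (m : Fin d →₀ ℕ) (hs : ∑ i, m i = d.choose 2) :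
    MvPolynomial.coeff m (vp d) =
      (((∏ k ∈ Finset.range d, (k.factorial : ℝ)) * Dl (rl m) / (fa m) ^ 2 : ℝ) : ℂ) := by
  classical
  rw [vp_sum, MvPolynomial.coeff_sum]
  simp only [MvPolynomial.coeff_monomial]
  have hP : (∏ k ∈ Finset.range d, (k.factorial : ℝ)) ≠ 0 :=
    Finset.prod_ne_zero_iff.2 fun k _ => by exact_mod_cast k.factorial_ne_zero
  by_cases hm : Function.Injective m
  · obtain ⟨σ, hσ⟩ := min_sum (m := m) hm hs
    have hmσ : (Finsupp.equivFunOnFinite.symm fun i => ((σ i : Fin d) : ℕ)) = m := by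
      ext i
      rw [Finsupp.equivFunOnFinite_symm_apply_apply, hσ i]
    rw [Finset.sum_eq_single σ]
    · rw [if_pos hmσ]
      have h1 : rl m = fun i => (fun i : Fin d => ((i : ℕ) : ℝ)) (σ i) := by
        funext i
        simp only [rl]
        rw [hσ i]
      have h2 : fa m = ∏ k ∈ Finset.range d, (k.factorial : ℝ) := by
        unfold fa
        rw [Finset.prod_congr rfl fun i _ => by rw [hσ i],
          Equiv.prod_comp σ (fun i : Fin d => ((i : ℕ)).factorial),
          Fin.prod_univ_eq_prod_range (fun i => i.factorial) d]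
        push_cast
        rfl
      have h5 := Dl_perm (fun i : Fin d => ((i : ℕ) : ℝ)) σ
      rw [h1, h5, h2, Dl_id]
      have e : (∏ k ∈ Finset.range d, (k.factorial : ℝ)) * (((Equiv.Perm.sign σ : ℤ) : ℝ) *
          ((-1) ^ (d.choose 2) * ∏ k ∈ Finset.range d, (k.factorial : ℝ))) /
          (∏ k ∈ Finset.range d, (k.factorial : ℝ)) ^ 2 = ((Equiv.Perm.sign σ : ℤ) : ℝ) * (-1) ^ (d.choose 2) := by
        field_simp
      rw [e]
      push_cast
      rfl
    · intro τ _ hτ
      rw [if_neg]
      intro h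
      apply hτ
      ext i
      have h3 := congrArg (fun f : Fin d →₀ ℕ => f i) (h.trans hmσ.symm)
      simpa using h3
    · intro h
      exact absurd (Finset.mem_univ _) h
  · have h0 : Dl (rl m) = 0 := by
      obtain ⟨i, j, hij, hne⟩ : ∃ i j, m i = m j ∧ i ≠ j := by
        unfold Function.Injective at hm
        push Not at hm
        exact hm
      rw [Dl_vand]
      refine Matrix.det_zero_of_row_eq hne ?_
      funext k
      rw [Matrix.vandermonde_apply, Matrix.vandermonde_apply, rl, rl, hij]
    rw [h0, mul_zero, zero_div, Complex.ofReal_zero]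
    refine Finset.sum_eq_zero fun τ _ => ?_
    rw [if_neg]
    intro h
    apply hm
    intro a b hab
    rw [← h, Finsupp.equivFunOnFinite_symm_apply_apply, Finsupp.equivFunOnFinite_symm_apply_apply] at hab
    exact τ.injective (Fin.ext hab)

end Pool.Agent.J4H80.QB
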