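import Pool.Agent.J4H80.QB.Krs

set_option autoImplicit false

/-! Project QB (helper61), piece KST (helper80). -/

open Matrix MeasureTheory
open scoped ComplexOrder

namespace Pool.Agent.J4H80.QB
open Pool.Agent.V11219.MomentOp Pool.Agent.J4H61.QB

lemma trace_adj {d t : ℕ} (A : MatT d t →ₗ[ℂ] MatT d t) (Z : MatT d t) :
    Matrix.trace (adj A Z) = Matrix.trace ((A 1)ᴴ * Z) := by
  have h1 : ∀ k l, A 1 k l = ∑ i, A (Matrix.single i i 1) k l := by
    intro k l
    rw [apply_eq_sum A 1 k l]
    refine Finset.sum_congr rfl fun i _ => ?_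
    rw [Finset.sum_eq_single i]
    · rw [Matrix.one_apply_eq, one_mul]
    · intro b _ hb
      rw [Matrix.one_apply_ne (Ne.symm hb), zero_mul]
    · intro h
      exact absurd (Finset.mem_univ i) h
  have h2 : Matrix.trace ((A 1)ᴴ * Z) = ∑ l, ∑ k, star (A 1 k l) * Z k l := by
    simp only [Matrix.trace, Matrix.diag_apply, Matrix.mul_apply, Matrix.conjTranspose_apply]
  have h3 : Matrix.trace (adj A Z) = ∑ i, ∑ k, ∑ l, Z k l * star (A (Matrix.single i i 1) k l) := rfl
  rw [h2, h3]
  simp only [h1, star_sum, Finset.sum_mul]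
  calc ∑ i, ∑ k, ∑ l, Z k l * star (A (Matrix.single i i 1) k l)
      = ∑ i, ∑ l, ∑ k, Z k l * star (A (Matrix.single i i 1) k l) :=
        Finset.sum_congr rfl fun i _ => Finset.sum_comm
    _ = ∑ l, ∑ i, ∑ k, Z k l * star (A (Matrix.single i i 1) k l) := Finset.sum_comm
    _ = ∑ l, ∑ k, ∑ i, Z k l * star (A (Matrix.single i i 1) k l) :=
        Finset.sum_congr rfl fun l _ => Finset.sum_comm
    _ = _ := by
        refine Finset.sum_congr rfl fun l _ => Finset.sum_congr rfl fun k _ =>
          Finset.sum_congr rfl fun i _ => ?_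
        ring

theorem t_KST : S_KST := by
  intro d t A hA Y
  have h1 := (hA.2 Y).trace_nonneg
  rw [Matrix.trace_sub] at h1
  have h2 := (Complex.le_def.1 h1).1
  rw [Complex.zero_re, Complex.sub_re, trace_adj A] at h2
  linarith

end Pool.Agent.J4H80.QB
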